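import Mathlib

set_option autoImplicit false

namespace Pool.Agent.Results.MP_5b0acc_co.No

open Set MeasureTheory

abbrev E3 := EuclideanSpace ℝ (Fin 3)

def vor (S : Set E3) (x : E3) : Set E3 := {y | ∀ z ∈ S, z ≠ x → dist y x < dist y z}

noncomputable def D (t : ℝ) : ℝ := 1 + t ^ 2 + t ^ 4

noncomputable def p (t : ℝ) : E3 := !₂[2 * t / D t, 2 * t ^ 2 / D t, (t ^ 2 + t ^ 4 - 1) / D t]

lemma D_pos (t : ℝ) : 0 < D t := by unfold D; positivity

noncomputable def L (y : E3) (t : ℝ) : ℝ := y 0 * p t 0 + y 1 * p t 1 + y 2 * p t 2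

lemma L_D (y : E3) (t : ℝ) :
    L y t * D t = 2 * y 0 * t + 2 * y 1 * t ^ 2 + y 2 * (t ^ 2 + t ^ 4 - 1) := by
  have := D_pos t
  simp [L, p]; field_simp

lemma dist_p (y : E3) (t : ℝ) : dist y (p t) ^ 2 = y 0 ^ 2 + y 1 ^ 2 + y 2 ^ 2 + 1 - 2 * L y t := by
  have h := D_pos t
  rw [EuclideanSpace.dist_sq_eq, Fin.sum_univ_three]
  simp only [Real.dist_eq, sq_abs, L]
  have : p t 0 ^ 2 + p t 1 ^ 2 + p t 2 ^ 2 = 1 := by
    simp [p]; field_simp; unfold D; ring
  linarith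

lemma key {a c b d s t : ℝ} (hst : s ≠ t) (hs : a * s ^ 4 + c * s ^ 2 + b * s + d = 0)
    (ht : a * t ^ 4 + c * t ^ 2 + b * t + d = 0) :
    ∃ f, (∀ u, a * u ^ 4 + c * u ^ 2 + b * u + d = (u - s) * (u - t) * (a * (u * (u + s + t)) + f))
      ∧ (a = 0 → f = 0 → c = 0 ∧ b = 0 ∧ d = 0) := by
  have hb : b = -(a * (s + t) * (s ^ 2 + t ^ 2) + c * (s + t)) := by
    apply mul_left_cancel₀ (sub_ne_zero.2 hst); linear_combination hs - ht
  refine ⟨c + a * (s ^ 2 + s * t + t ^ 2), fun u => ?_, ?_⟩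
  · subst hb; linear_combination hs
  · rintro rfl h
    have hc : c = 0 := by simpa using h
    subst hc
    simp at hb
    subst hb
    simpa using hs

lemma p_inj {s t : ℝ} (hs : 0 < s) (h : p s = p t) : s = t := by
  have h0 : 2 * s / D s = 2 * t / D t := by simpa [p] using congrArg (· 0) h
  have h1 : 2 * s ^ 2 / D s = 2 * t ^ 2 / D t := by simpa [p] using congrArg (· 1) h
  have a := D_pos s
  have e1 : 2 * s ^ 2 / D s = s * (2 * s / D s) := by ring
  have e2 : 2 * t ^ 2 / D t = t * (2 * t / D t) := by ring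
  rw [e1, e2, ← h0] at h1
  exact mul_right_cancel₀ (by positivity) h1

lemma poly (y : E3) (m t : ℝ) : (m - L y t) * D t =
    (m - y 2) * t ^ 4 + (m - 2 * y 1 - y 2) * t ^ 2 + (-2 * y 0) * t + (m + y 2) := by
  rw [sub_mul, L_D]; unfold D; ring

lemma zero_of (y : E3) (m : ℝ) (h1 : m - y 2 = 0)
    (h : m - 2 * y 1 - y 2 = 0 ∧ -2 * y 0 = 0 ∧ m + y 2 = 0) : y = 0 := by
  ext i; fin_cases i <;> simp <;> linarith [h.1, h.2.1, h.2.2]

lemma five (y : E3) {t1 t2 t3 t4 t5 : ℝ} (h0 : 0 < t1) (h12 : t1 < t2) (h23 : t2 < t3)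
    (h34 : t3 < t4) (h45 : t4 < t5) (e : L y t4 = L y t2) (a1 : L y t1 ≤ L y t2)
    (a3 : L y t3 ≤ L y t2) (a5 : L y t5 ≤ L y t2) : y = 0 := by
  obtain ⟨f, hf, hz⟩ := key (s := t2) (t := t4) (by linarith)
    (by rw [← poly y (L y t2)]; simp) (by rw [← poly y (L y t2), e]; simp)
  set a := L y t2 - y 2
  have g : ∀ u, L y u ≤ L y t2 → 0 ≤ (u - t2) * (u - t4) * (a * (u * (u + t2 + t4)) + f) := by
    intro u hu
    rw [← hf, ← poly]; exact mul_nonneg (sub_nonneg.2 hu) (D_pos u).le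
  have b1 := (mul_nonneg_iff_of_pos_left (mul_pos_of_neg_of_neg (by linarith) (by linarith))).1
    (g t1 a1)
  have b5 := (mul_nonneg_iff_of_pos_left (mul_pos (by linarith) (by linarith))).1 (g t5 a5)
  have b3 : a * (t3 * (t3 + t2 + t4)) + f ≤ 0 := by
    by_contra hn
    have := mul_neg_of_neg_of_pos (mul_neg_of_pos_of_neg (by linarith : 0 < t3 - t2)
      (by linarith : t3 - t4 < 0)) (not_le.1 hn)
    linarith [g t3 a3]
  have c1 : t1 * (t1 + t2 + t4) < t3 * (t3 + t2 + t4) := by nlinarith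
  have c2 : t3 * (t3 + t2 + t4) < t5 * (t5 + t2 + t4) := by nlinarith
  have ha : a = 0 := by
    rcases lt_trichotomy a 0 with h | h | h
    · nlinarith
    · exact h
    · nlinarith
  have hf0 : f = 0 := by rw [ha] at b1 b3; linarith
  exact zero_of y _ ha (hz ha hf0)

lemma twisted {s t u v : ℝ} (hs : 0 < s) (ht : 0 < t) (hu : 0 < u) (hv : 0 < v) (h1 : s ≠ t)
    (h2 : s ≠ u) (h3 : s ≠ v) (h4 : t ≠ u) (h5 : t ≠ v) (h6 : u ≠ v) :
    ¬ Coplanar ℝ {p s, p t, p u, p v} := by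
  intro h
  have hlt : vectorSpan ℝ {p s, p t, p u, p v} ≠ ⊤ := by
    intro e
    have := h.finrank_le_two
    rw [e] at this; simp at this
  obtain ⟨y, hy, hy0⟩ : ∃ y ∈ (vectorSpan ℝ {p s, p t, p u, p v})ᗮ, y ≠ 0 := by
    apply Submodule.exists_mem_ne_zero_of_ne_bot
    rwa [Ne, Submodule.orthogonal_eq_bot_iff]
  have hL : ∀ w, p w ∈ ({p s, p t, p u, p v} : Set E3) → L y w = L y s := by
    intro w hw
    have := (Submodule.mem_orthogonal _ _).1 hy _ (vsub_mem_vectorSpan ℝ hw (mem_insert _ _))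
    simp [PiLp.inner_apply, Fin.sum_univ_three] at this
    simp only [L]; linarith
  obtain ⟨f, hf, hz⟩ := key h1 (by rw [← poly y (L y s)]; simp)
    (by rw [← poly y (L y s), hL t (by simp)]; simp)
  set a := L y s - y 2
  have g : ∀ w, w ≠ s → w ≠ t → L y w = L y s → a * (w * (w + s + t)) + f = 0 := by
    intro w a1 a2 a3
    have := hf w
    rw [← poly, a3, sub_self, zero_mul] at this
    exact (mul_eq_zero.1 this.symm).resolve_left
      (mul_ne_zero (sub_ne_zero.2 a1) (sub_ne_zero.2 a2))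
  have gu := g u h2.symm h4.symm (hL u (by simp))
  have gv := g v h3.symm h5.symm (hL v (by simp))
  have ha : a = 0 := by
    have : a * ((u - v) * (u + v + s + t)) = 0 := by linear_combination gu - gv
    exact (mul_eq_zero.1 this).resolve_right (mul_ne_zero (sub_ne_zero.2 h6) (by positivity))
  have hf0 : f = 0 := by rw [ha] at gu; linarith
  exact hy0 (zero_of y _ ha (hz ha hf0))

lemma clos {S : Set E3} {x y z : E3} (hy : y ∈ closure (vor S x)) (hz : z ∈ S) :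
    dist y x ≤ dist y z := by
  refine closure_minimal (t := {y | dist y x ≤ dist y z}) (fun w hw => ?_)
    (isClosed_le (by fun_prop) (by fun_prop)) hy
  by_cases h : z = x
  · simp [h]
  · exact (hw z hz h).le

theorem result : ∃ γ : ℝ → E3, ContinuousOn γ (Icc 1 2) ∧ InjOn γ (Icc 1 2) ∧
    (∀ a ∈ γ '' Icc 1 2, ∀ b ∈ γ '' Icc 1 2, ∀ c ∈ γ '' Icc 1 2, ∀ d ∈ γ '' Icc 1 2,
      a ≠ b → a ≠ c → a ≠ d → b ≠ c → b ≠ d → c ≠ d → ¬ Coplanar ℝ {a, b, c, d}) ∧
    ∀ S ⊆ γ '' Icc 1 2, 5 ≤ S.encard → ∃ x ∈ S, ∃ x' ∈ S, x ≠ x' ∧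
      μH[2] (closure (vor S x) ∩ closure (vor S x')) = 0 := by
  have pos : ∀ t ∈ Icc (1 : ℝ) 2, 0 < t := fun t ht => by linarith [ht.1]
  refine ⟨p, ?_, fun s hs t _ h => p_inj (pos s hs) h, ?_, ?_⟩
  · refine Continuous.continuousOn ?_
    have hD : Continuous D := by unfold D; fun_prop
    unfold p
    refine (PiLp.continuous_toLp 2 _).comp (continuous_pi fun i => ?_)
    fin_cases i <;> exact Continuous.div (by fun_prop) hD fun t => (D_pos t).ne'
  · rintro _ ⟨s, hs, rfl⟩ _ ⟨t, ht, rfl⟩ _ ⟨u, hu, rfl⟩ _ ⟨v, hv, rfl⟩ h1 h2 h3 h4 h5 h6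
    exact twisted (pos s hs) (pos t ht) (pos u hu) (pos v hv) (fun e => h1 (by rw [e]))
      (fun e => h2 (by rw [e])) (fun e => h3 (by rw [e])) (fun e => h4 (by rw [e]))
      (fun e => h5 (by rw [e])) (fun e => h6 (by rw [e]))
  intro S hS h5
  have hT : 5 ≤ (Icc 1 2 ∩ p ⁻¹' S).encard := by
    refine h5.trans ?_
    have : S = p '' (Icc 1 2 ∩ p ⁻¹' S) := by
      rw [image_inter_preimage, inter_eq_self_of_subset_right hS]
    conv_lhs => rw [this]
    exact encard_image_le _ _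
  obtain ⟨T, hT1, hT2⟩ := exists_subset_encard_eq hT
  have hf : T.Finite := finite_of_encard_eq_coe hT2
  have hc : hf.toFinset.card = 5 := by
    have := hf.encard_eq_coe_toFinset_card
    rw [hT2] at this; exact_mod_cast this.symm
  set t := hf.toFinset.orderEmbOfFin hc
  have ht : ∀ i, t i ∈ Icc 1 2 ∩ p ⁻¹' S := fun i =>
    hT1 (hf.mem_toFinset.1 (Finset.orderEmbOfFin_mem _ hc i))
  have lt : ∀ i j : Fin 5, i < j → t i < t j := fun i j h => t.strictMono h
  refine ⟨p (t 1), (ht 1).2, p (t 3), (ht 3).2,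
    fun e => (lt 1 3 (by decide)).ne (p_inj (pos _ (ht 1).1) e), ?_⟩
  have := Measure.noAtoms_hausdorff E3 (d := 2) two_pos
  refine measure_mono_null (t := {0}) ?_ (measure_singleton _)
  rintro y ⟨h1, h3⟩
  have cv : ∀ {a b : ℝ}, dist y (p a) ≤ dist y (p b) → L y b ≤ L y a := by
    intro a b h
    have := pow_le_pow_left₀ dist_nonneg h 2
    rw [dist_p, dist_p] at this; linarith
  exact five y (pos _ (ht 0).1) (lt 0 1 (by decide)) (lt 1 2 (by decide)) (lt 2 3 (by decide))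
    (lt 3 4 (by decide)) (le_antisymm (cv (clos h1 (ht 3).2)) (cv (clos h3 (ht 1).2)))
    (cv (clos h1 (ht 0).2)) (cv (clos h1 (ht 2).2)) (cv (clos h1 (ht 4).2))

end Pool.Agent.Results.MP_5b0acc_co.No
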